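import Pool.Agent.Helper74.Circ.Main

/-!
# A superlinear lower bound for arithmetic circuits computing the permanent
-/

set_option autoImplicit false

namespace Pool.Agent.Results.MP_381749_lc.CircuitSize

open MvPolynomial Finset

/-- The permanent of the generic `n × n` matrix. -/
noncomputable def perm (n : ℕ) : MvPolynomial (Fin n × Fin n) ℂ :=
  (Matrix.of fun i j : Fin n => (X (i, j) : MvPolynomial (Fin n × Fin n) ℂ)).permanent

/-- `f` is a linear combination, with complex coefficients, of `1`, of the variables and of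
`y 0, …, y (k - 1)`. -/
def LinComb {n : ℕ} (y : ℕ → MvPolynomial (Fin n × Fin n) ℂ) (k : ℕ)
    (f : MvPolynomial (Fin n × Fin n) ℂ) : Prop :=
  ∃ (c : ℂ) (α : Fin n × Fin n → ℂ) (β : ℕ → ℂ),
    f = C c + ∑ v, C (α v) * X v + ∑ j ∈ range k, C (β j) * y j

/-- `P` is computed by an arithmetic circuit with `r` multiplications, all other gates (inputs, constants, linear
combinations) being free and the fan-out being unrestricted: `y 0, …, y (r - 1)` are the results of the
multiplications. -/
def Computes {n : ℕ} (r : ℕ) (P : MvPolynomial (Fin n × Fin n) ℂ) : Prop :=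
  ∃ y : ℕ → MvPolynomial (Fin n × Fin n) ℂ,
    (∀ k < r, ∃ f g, LinComb y k f ∧ LinComb y k g ∧ y k = f * g) ∧ LinComb y r P

/-- If the permanent of the generic `n × n` matrix is a limit (coefficient by coefficient) of polynomials computed by
arithmetic circuits over `ℂ` with `r` multiplications, then `r ≥ c n ^ 2 log n`. -/
theorem result : ∃ c : ℝ, 0 < c ∧ ∀ n r : ℕ, 2 ≤ n →
    (∀ ε : ℝ, 0 < ε → ∃ P : MvPolynomial (Fin n × Fin n) ℂ, Computes r P ∧
      ∀ s, ‖coeff s P - coeff s (perm n)‖ < ε) →
    c * (n : ℝ) ^ 2 * Real.log n ≤ r := by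
  obtain ⟨c, hc, H⟩ := Circ.final
  exact ⟨c, hc, fun n r hn h => H n r hn fun ε hε => h ε hε⟩

end Pool.Agent.Results.MP_381749_lc.CircuitSize
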