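import Pool.Agent.Helper74.Clique.CircMain
import Pool.Agent.Helper63.Clq.Test2

/-!
# Circuits for polynomial identity tests for `k`-clique
-/

set_option autoImplicit false

namespace Pool.Agent.Results.MP_b6562f_lc.CliqueCircuits

open MvPolynomial Finset

/-- The polynomial in the variables `x e`, `e` a pair of vertices, and `l` auxiliary variables, with `x e` replaced by `0`
for every `e` which is not an edge of the graph `G`. -/
noncomputable def restrict {n l : ℕ} (G : SimpleGraph (Fin n)) (f : MvPolynomial (Sym2 (Fin n) ⊕ Fin l) ℂ) :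
    MvPolynomial (Sym2 (Fin n) ⊕ Fin l) ℂ :=
  open Classical in
  aeval (Sum.elim (fun e => if e ∈ G.edgeSet then X (Sum.inl e) else 0) (fun y => X (Sum.inr y))) f

/-- `f` is a polynomial identity test for `k`-clique: it is multilinear in the edge variables, and for every graph `G` on
the `n` vertices it is a nonzero polynomial on `G` iff `G` has a `k`-clique. -/
def IsTest {n l : ℕ} (k : ℕ) (f : MvPolynomial (Sym2 (Fin n) ⊕ Fin l) ℂ) : Prop :=
  (∀ e : Sym2 (Fin n), degreeOf (Sum.inl e) f ≤ 1) ∧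
    ∀ G : SimpleGraph (Fin n), restrict G f ≠ 0 ↔ ∃ C : Finset (Fin n), G.IsNClique k C

/-- `f` is a linear combination, with complex coefficients, of `1`, of the variables and of
`y 0, …, y (k - 1)`. -/
def LinComb {n l : ℕ} (y : ℕ → MvPolynomial (Sym2 (Fin n) ⊕ Fin l) ℂ) (k : ℕ)
    (f : MvPolynomial (Sym2 (Fin n) ⊕ Fin l) ℂ) : Prop :=
  ∃ (c : ℂ) (α : Sym2 (Fin n) ⊕ Fin l → ℂ) (β : ℕ → ℂ),
    f = C c + ∑ v, C (α v) * X v + ∑ j ∈ range k, C (β j) * y j

/-- `P` is computed by an arithmetic circuit with `r` multiplications, all other gates (inputs, constants, linear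
combinations) being free and the fan-out being unrestricted: `y 0, …, y (r - 1)` are the results of the
multiplications. -/
def Computes {n l : ℕ} (r : ℕ) (P : MvPolynomial (Sym2 (Fin n) ⊕ Fin l) ℂ) : Prop :=
  ∃ y : ℕ → MvPolynomial (Sym2 (Fin n) ⊕ Fin l) ℂ,
    (∀ k < r, ∃ f g, LinComb y k f ∧ LinComb y k g ∧ y k = f * g) ∧ LinComb y r P

/-- Every polynomial identity test for `k`-clique on `n` vertices needs, even for approximate computation, at least
`(n - k) ^ 2 log (min k (n - k)) / 384` multiplications. -/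
theorem result (n k l r : ℕ) (hk : 4096 ≤ k) (hkn : k + 4096 ≤ n) (f : MvPolynomial (Sym2 (Fin n) ⊕ Fin l) ℂ)
    (hf : IsTest k f)
    (h : ∀ ε : ℝ, 0 < ε → ∃ P : MvPolynomial (Sym2 (Fin n) ⊕ Fin l) ℂ, Computes r P ∧
      ∀ s, ‖coeff s P - coeff s f‖ < ε) :
    ((n - k : ℕ) : ℝ) ^ 2 * Real.log (min k (n - k) : ℕ) ≤ 384 * r := by
  obtain ⟨g, hg, H⟩ := CliqueTest.test_circuits k (by omega) f hf
  exact Clique.circ_main n k r hk hkn g hg (H r h)

end Pool.Agent.Results.MP_b6562f_lc.CliqueCircuits
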