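import Pool.Agent.Helper40.CliqueF.Main

/-!
# Formulas for identity tests of `k`-clique
-/

set_option autoImplicit false

namespace Pool.Agent.Results.MP_b6562f_lc.CliqueFormulas

open MvPolynomial Pool.Agent.Helper71.Fml

/-- Put all variables equal to zero, except those of the edges of `G`. -/
noncomputable def restrict {n : ℕ} (K : Type) [Field K] (G : SimpleGraph (Fin n)) :
    MvPolynomial (Sym2 (Fin n)) K →ₐ[K] MvPolynomial (Sym2 (Fin n)) K :=
  open Classical in aeval fun e => if e ∈ G.edgeSet then X e else 0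

/-- `f` is an identity test for `k`-clique: for every graph `G` on `n` vertices, `f` is nonzero as
a polynomial in the variables of the edges of `G` if and only if `G` has a clique of size `k`. -/
def IsTest {n : ℕ} {K : Type} [Field K] (k : ℕ) (f : MvPolynomial (Sym2 (Fin n)) K) : Prop :=
  ∀ G : SimpleGraph (Fin n), restrict K G f ≠ 0 ↔ ∃ C : Finset (Fin n), G.IsNClique k C

/-- Every arithmetic formula (with divisions; the constants are free) over any field that computes
an identity test for `k`-clique has at least `n ^ 2 (n - k) ^ (2 - 1 / l) / (200000 l)` leaves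
labelled by variables, for every `l ≥ 1` with `2 l + 3 ≤ k`. -/
theorem result {K : Type} [Field K] (n k l : ℕ) (hl : 1 ≤ l) (hk : 2 * l + 3 ≤ k)
    (hn : k + 16 ≤ n) (f : MvPolynomial (Sym2 (Fin n)) K) (hf : IsTest k f)
    (φ : Formula K (Sym2 (Fin n)))
    (hφ : φ.eval = algebraMap (MvPolynomial (Sym2 (Fin n)) K)
      (FractionRing (MvPolynomial (Sym2 (Fin n)) K)) f) :
    (n : ℝ) ^ 2 * ((n - k : ℕ) : ℝ) ^ (2 - 1 / (l : ℝ)) ≤ 200000 * l * φ.size :=
  Pool.Agent.Helper40.CliqueF.main n k l hl hk hn f hf φ hφ

end Pool.Agent.Results.MP_b6562f_lc.CliqueFormulas
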