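import Pool.Agent.Helper56.Det.Main

set_option autoImplicit false

open Pool.Agent.Helper56.Det

/-- Approximating the number of perfect matchings of bipartite graphs on `n + n` vertices within a
factor `R` by a sum of `k` weighted determinants needs `k ≥ (4/3) ^ ⌊n/3⌋ / R ^ 2`. -/
theorem Pool.Agent.Results.MP_381749_lc.DetApprox.result
    (n k : ℕ) (c : Fin k → (Fin n → Fin n → Bool) → ℂ)
    (hc : ∀ i (G : Fin n → Fin n → Bool) (π ρ : Equiv.Perm (Fin n)),
      c i (fun a b => G (π a) (ρ b)) = c i G)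
    (r : Fin k → ℕ) (hr : ∀ i, Odd (r i))
    (A : (i : Fin k) → Fin n → Fin n → Matrix (Fin (r i)) (Fin (r i)) ℂ) (R : ℝ)
    (h : ∀ G : Fin n → Fin n → Bool,
      (pm G : ℝ) ≤ (∑ i, c i G * (blockMatrix (A i) G).det).re ∧
      ‖∑ i, c i G * (blockMatrix (A i) G).det‖ ≤ R * pm G) :
    (4 / 3 : ℝ) ^ (n / 3) ≤ k * R ^ 2 :=
  approx_invariant k c hc r hr A R h
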