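import Mathlib
import Pool.Agent.Helper73.DC.Total

/-!
# Determinants representing or approximating a multiple of the permanent

Counting the perfect matchings of a bipartite graph is the evaluation of a permanent.  The most
studied way of computing a permanent is as a determinant `det (A₀ + ∑ x i j • A i j)` of a matrix of
affine forms in the entries.  Mignon and Ressayre proved that over the complex numbers the size `m`
of such a matrix is at least `n ^ 2 / 2`.  Here the constant is improved: over every field in which
`(n - 1)!` is not zero one needs `m ≥ (n - 1) ^ 2 + 2`, and `m ≥ (n - 1) ^ 2 + 1` for determinants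
which only approximate the permanent (border complexity).  The bounds hold for every nonzero
multiple of the permanent.

In the theorem the matrices have entries in `K[e]`, and the determinant is
`e ^ k * (perm * h + e * g)` with polynomials `h` over `K` and `g` over `K[e]`, such that the
permanent does not divide `h`, or `g = 0` and `h ≠ 0`.  (Take `k = 0`, `g = 0`, `h = 1` and constant
matrices for the determinantal complexity of the permanent.)
-/

namespace Pool.Agent.Results.MP_381749_lc.DeterminantalComplexity

open Pool.Agent.Helper73.DC in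
/-- Lower bounds for the size of a matrix of affine forms, over `K[e]`, whose determinant is
`e ^ k * (perm * h + e * g)`. -/
theorem result {K : Type*} [Field K] {n : ℕ} (hn : 4 ≤ n) (hK : ((n - 1).factorial : K) ≠ 0)
    (m k : ℕ) (A₀ : Matrix (Fin m) (Fin m) (Polynomial K))
    (A : Fin n → Fin n → Matrix (Fin m) (Fin m) (Polynomial K))
    (h : MvPolynomial (Fin n × Fin n) K) (g : MvPolynomial (Fin n × Fin n) (Polynomial K))
    (hdet : (A₀.map MvPolynomial.C +
        ∑ i, ∑ j, (MvPolynomial.X (i, j) : MvPolynomial (Fin n × Fin n) (Polynomial K)) •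
          (A i j).map MvPolynomial.C).det =
      MvPolynomial.C (Polynomial.X ^ k) *
        (MvPolynomial.map Polynomial.C
          ((Matrix.of fun i j => (MvPolynomial.X (i, j) : MvPolynomial (Fin n × Fin n) K)).permanent
            * h) + MvPolynomial.C Polynomial.X * g))
    (hh : ¬ (Matrix.of fun i j =>
        (MvPolynomial.X (i, j) : MvPolynomial (Fin n × Fin n) K)).permanent ∣ h ∨
      g = 0 ∧ h ≠ 0) :
    (n - 1) ^ 2 + 1 ≤ m ∧
      (g = 0 → MvPolynomial.constantCoeff h ≠ 0 → (n - 1) ^ 2 + 2 ≤ m) := by
  obtain ⟨N, rfl⟩ : ∃ N, n = N + 1 := ⟨n - 1, by omega⟩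
  have hperm : (Matrix.of fun i j =>
      (MvPolynomial.X (i, j) : MvPolynomial (Fin (N + 1) × Fin (N + 1)) K)).permanent =
      Pool.Agent.Helper20.MR.permPoly (Fin (N + 1)) K := by
    rw [Pool.Agent.Helper20.MR.permanent_eq]
    rfl
  rw [hperm] at hdet hh
  have haff : A₀.map MvPolynomial.C +
      ∑ i, ∑ j, (MvPolynomial.X (i, j) :
        MvPolynomial (Fin (N + 1) × Fin (N + 1)) (Polynomial K)) • (A i j).map MvPolynomial.C =
      affMat A₀ (fun p : Fin (N + 1) × Fin (N + 1) => A p.1 p.2) := by
    ext1 a b
    simp [affMat, Matrix.sum_apply, Fintype.sum_prod_type, mul_comm]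
  rw [haff] at hdet
  exact total (by omega) hK m k A₀ _ h g hdet hh

end Pool.Agent.Results.MP_381749_lc.DeterminantalComplexity
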