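import Mathlib
import Pool.Agent.Lead.GadgetRank

/-!
# Counting perfect matchings modulo an odd prime by sums of determinants

Over a field of characteristic two the permanent is the determinant.  Over every other field `K`
the permanents of `0`, `1` matrices are not linear combinations of few determinants into which the
rows of the matrix enter with bounded rank: if `N` determinants suffice, where the `i`-th row enters
with rank at most `τ i`, and `a` is the average of the numbers `τ i`, then
`(k / 4 ^ a) ^ (n / (2 k + 2)) ≤ N` for all `k` with `k ≠ 1` in `K`.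
-/

open Finset Pool.Agent.Lead

namespace Pool.Agent.Results.MP_381749_lc.ModularRowRank

/-- An exponential lower bound for counting perfect matchings of bipartite graphs in a field of
characteristic different from two (for instance modulo an odd prime) by linear combinations of
determinants into which the `i`-th row of the biadjacency matrix enters with rank at most `τ i`. -/
theorem result {K : Type*} [Field K] (hK : (2 : K) ≠ 0) (n N : ℕ) (τ : Fin n → ℕ)
    (S : Fin N → Type) [∀ k, Fintype (S k)] [∀ k, DecidableEq (S k)]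
    (C : ∀ k, Matrix (S k) (S k) K)
    (P : ∀ (k : Fin N) (i : Fin n), Matrix (S k) (Fin (τ i)) K)
    (Q : ∀ (k : Fin N) (i : Fin n), (Fin n → K) → Matrix (Fin (τ i)) (S k) K)
    (c : Fin N → K)
    (h : ∀ X : Matrix (Fin n) (Fin n) K, (∀ i j, X i j = 0 ∨ X i j = 1) →
      X.permanent = ∑ k, c k * (C k + ∑ i, P k i * Q k i (X i)).det)
    (k : ℕ) (hk : (k : K) ≠ 1) :
    ((k : ℝ) / 4 ^ ((∑ i, (τ i : ℝ)) / n)) ^ (n / (2 * k + 2)) ≤ N := by
  classical
  set q : ℕ := n / (2 * k + 2) with hq
  have hqn : q * (2 * k + 2) ≤ n := Nat.div_mul_le_self n _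
  have h2q : 2 * q ≤ n := by nlinarith [Nat.zero_le (q * k)]
  set a : ℝ := (∑ i, (τ i : ℝ)) / n with ha
  -- the rows may be reordered
  let ρ : Equiv.Perm (Fin n) := Tuple.sort τ
  have hmono : Monotone (fun i => τ (ρ i)) := Tuple.monotone_sort τ
  have h1 := GadgetRank.bound_Q hK n N k q (sub_ne_zero.2 hk) hqn (fun i => τ (ρ i)) S C
    (fun k i => P k (ρ i)) (fun k i => Q k (ρ i)) c
    (by
      intro X hX
      have h2 := h (fun i => X (ρ.symm i)) (fun i j => hX _ j)
      have h3 : Matrix.permanent (fun i => X (ρ.symm i) : Matrix (Fin n) (Fin n) K)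
          = X.permanent := Matrix.permanent_permute_cols ρ.symm X
      rw [h3] at h2
      rw [h2]
      refine Finset.sum_congr rfl fun k _ => ?_
      congr 3
      rw [← Equiv.sum_comp ρ]
      refine Finset.sum_congr rfl fun i _ => ?_
      rw [Equiv.symm_apply_apply])
  have h4 := RankAdditive.mul_sum_filter_le (m := 2 * q) (fun i => τ (ρ i)) hmono
  rw [min_eq_left h2q, Equiv.sum_comp ρ τ] at h4
  set s : ℕ := ∑ i ∈ univ.filter (fun i : Fin n => i.1 < 2 * q), τ (ρ i) with hs
  rcases Nat.eq_zero_or_pos n with hn | hn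
  · have hq0 : q = 0 := by omega
    have hs0 : s = 0 := by
      rw [hs]
      refine Finset.sum_eq_zero fun i hi => ?_
      rw [hq0] at hi
      simp at hi
    rw [hs0, hq0, pow_zero, pow_zero, mul_one] at h1
    rw [hq0, pow_zero]
    exact_mod_cast h1
  have hn' : (0 : ℝ) < n := by exact_mod_cast hn
  have h5 : (s : ℝ) ≤ 2 * q * a := by
    rw [ha, mul_div_assoc', le_div_iff₀ hn']
    have : ((n * s : ℕ) : ℝ) ≤ ((2 * q * ∑ i, τ i : ℕ) : ℝ) := by exact_mod_cast h4
    push_cast at this
    linarith
  have h6 : (2 : ℝ) ^ s ≤ ((4 : ℝ) ^ a) ^ q := by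
    have e1 : ((4 : ℝ) ^ a) ^ q = (2 : ℝ) ^ (2 * q * a) := by
      rw [← Real.rpow_natCast, ← Real.rpow_mul (by norm_num),
        show (4 : ℝ) = (2 : ℝ) ^ (2 : ℝ) by norm_num, ← Real.rpow_mul (by norm_num)]
      congr 1; ring
    rw [e1, ← Real.rpow_natCast]
    exact Real.rpow_le_rpow_of_exponent_le (by norm_num) h5
  have h7 : (k : ℝ) ^ q ≤ N * 2 ^ s := by exact_mod_cast h1
  rw [div_pow, div_le_iff₀ (by positivity)]
  exact h7.trans (by gcongr)

end Pool.Agent.Results.MP_381749_lc.ModularRowRank
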