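import Pool.Agent.Helper14.Sym.Final

/-!
One diagonal symmetry forces exponential size: the determinantal complexity of the permanent
under a single dissociated diagonal symmetry is at least `2 ^ n - 1`, over every field of
characteristic different from two. Grenet's representation shows that this is sharp.
-/

namespace Pool.Agent.Results.MP_381749_lc.OneDiagonalSymmetry

open Finset Matrix

/-- Let `K` be a field with `2 ≠ 0` and `n ≥ 3`. Suppose that a nonzero constant multiple of the
permanent of the generic `n × n` matrix `X` is the determinant of the `m × m` matrix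
`A₀ + ∑ X i j • A i j` of affine linear forms, and that this matrix is equivariant under ONE
pair of diagonal scalings `x i j ↦ d i * d' j * x i j` (that is, there are invertible constant
matrices `P`, `R` which turn it back into itself after the scaling), where the scalars are
dissociated: the products `∏ i ∈ S, d i * ∏ j ∈ T, d' j` with `|S| = |T|` are pairwise
different. Then `m ≥ 2 ^ n - 1`. -/
theorem result (K : Type) [Field K] (h2 : (2 : K) ≠ 0) (n m : ℕ) (hn : 3 ≤ n)
    (A₀ : Matrix (Fin m) (Fin m) K) (A : Fin n → Fin n → Matrix (Fin m) (Fin m) K)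
    (c : K) (hc : c ≠ 0)
    (hdet : (A₀.map MvPolynomial.C + ∑ i, ∑ j,
        (MvPolynomial.X (i, j) : MvPolynomial (Fin n × Fin n) K) •
          (A i j).map MvPolynomial.C).det =
      MvPolynomial.C c * (Matrix.of fun i j =>
        (MvPolynomial.X (i, j) : MvPolynomial (Fin n × Fin n) K)).permanent)
    (d d' : Fin n → K)
    (hd : ∀ S T S' T' : Finset (Fin n), S.card = T.card → S'.card = T'.card →
      (∏ i ∈ S, d i) * (∏ j ∈ T, d' j) = (∏ i ∈ S', d i) * (∏ j ∈ T', d' j) →
      S = S' ∧ T = T')
    (P R : Matrix (Fin m) (Fin m) K) (hP : IsUnit P.det) (hR : IsUnit R.det)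
    (h0 : P * A₀ * R = A₀) (h1 : ∀ i j, P * A i j * R = (d i * d' j) • A i j) :
    2 ^ n - 1 ≤ m := by
  classical
  -- the scalars are nonzero
  have hprod : ∀ i j, d i * d' j ≠ 0 := by
    intro i j h
    obtain ⟨j', hj'⟩ : ∃ j' : Fin n, j' ≠ j := by
      have : Nontrivial (Fin n) := Fin.nontrivial_iff_two_le.mpr (by omega)
      exact exists_ne j
    rcases mul_eq_zero.mp h with h | h
    · have := (hd {i} {j} {i} {j'} rfl rfl (by simp [h])).2
      exact hj' (singleton_injective this).symm
    · obtain ⟨i', hi'⟩ : ∃ i' : Fin n, i' ≠ i := by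
        have : Nontrivial (Fin n) := Fin.nontrivial_iff_two_le.mpr (by omega)
        exact exists_ne i
      have := (hd {i} {j} {i'} {j} rfl rfl (by simp [h])).1
      exact hi' (singleton_injective this).symm
  let z : Fin n := ⟨0, by omega⟩
  have hd0 : ∀ i, d i ≠ 0 := fun i => left_ne_zero_of_mul (hprod i z)
  have hd0' : ∀ j, d' j ≠ 0 := fun j => right_ne_zero_of_mul (hprod z j)
  -- pass to the algebraic closure
  let F := AlgebraicClosure K
  let φ : K →+* F := algebraMap K F
  have hφ : Function.Injective φ := (algebraMap K F).injective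
  have hφ0 : ∀ x : K, x ≠ 0 → φ x ≠ 0 := fun x hx => (map_ne_zero φ).2 hx
  have h2F : (2 : F) ≠ 0 := by
    have := hφ0 2 h2
    rwa [map_ofNat] at this
  let e : Fin n → Fˣ := fun i => Units.mk0 (φ (d i)) (hφ0 _ (hd0 i))
  let e' : Fin n → Fˣ := fun j => Units.mk0 (φ (d' j)) (hφ0 _ (hd0' j))
  refine Pool.Agent.Helper14.Sym.main (F := F) h2F hn (A₀.map φ)
    (fun p => (A p.1 p.2).map φ) (φ c) (hφ0 c hc) ?_ e e' ?_ (P.map φ) (R.map φ) ?_ ?_ ?_ ?_
  · intro x
    have key := congrArg (MvPolynomial.eval₂Hom φ x) hdet
    rw [RingHom.map_det, map_mul, MvPolynomial.eval₂Hom_C] at key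
    have e1 : (MvPolynomial.eval₂Hom φ x).mapMatrix (A₀.map MvPolynomial.C + ∑ i, ∑ j,
        (MvPolynomial.X (i, j) : MvPolynomial (Fin n × Fin n) K) •
          (A i j).map MvPolynomial.C) =
        A₀.map φ + ∑ p : Fin n × Fin n, x p • (A p.1 p.2).map φ := by
      rw [map_add, map_sum, Fintype.sum_prod_type]
      congr 1
      · ext r s
        rw [RingHom.mapMatrix_apply, map_apply, map_apply, map_apply, MvPolynomial.eval₂Hom_C]
      · refine sum_congr rfl (fun i _ => ?_)
        rw [map_sum]
        refine sum_congr rfl (fun j _ => ?_)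
        ext r s
        rw [RingHom.mapMatrix_apply, map_apply, Matrix.smul_apply, Matrix.smul_apply, map_apply,
          map_apply, smul_eq_mul, smul_eq_mul, map_mul, MvPolynomial.eval₂Hom_C,
          MvPolynomial.eval₂Hom_X']
    have e2 : MvPolynomial.eval₂Hom φ x (Matrix.of fun i j =>
        (MvPolynomial.X (i, j) : MvPolynomial (Fin n × Fin n) K)).permanent =
        (Matrix.of fun i j => x (i, j)).permanent := by
      rw [permanent, permanent, map_sum]
      refine sum_congr rfl (fun τ _ => ?_)
      rw [map_prod]
      refine prod_congr rfl (fun i _ => ?_)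
      rw [of_apply, of_apply, MvPolynomial.eval₂Hom_X']
    rw [e1, e2] at key
    exact key
  · intro S T S' T' hST hST' h
    apply hd S T S' T' hST hST'
    apply hφ
    have h' := congrArg (fun u : Fˣ => (u : F)) h
    simp only [Units.val_mul, Units.coe_prod] at h'
    rw [map_mul, map_mul, map_prod, map_prod, map_prod, map_prod]
    exact h'
  · have := RingHom.map_det φ P
    rw [RingHom.mapMatrix_apply] at this
    rw [← this]
    exact hP.map φ
  · have := RingHom.map_det φ R
    rw [RingHom.mapMatrix_apply] at this
    rw [← this]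
    exact hR.map φ
  · rw [← Matrix.map_mul, ← Matrix.map_mul, h0]
  · intro p
    rw [← Matrix.map_mul, ← Matrix.map_mul, h1]
    ext r s
    rw [map_apply, Matrix.smul_apply, Matrix.smul_apply, map_apply, smul_eq_mul, smul_eq_mul,
      map_mul, map_mul]
    rfl

end Pool.Agent.Results.MP_381749_lc.OneDiagonalSymmetry
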