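import Pool.Agent.Helper71.Cliq.Rand

/-!
# Randomised Boolean formulas with two-sided error for the clique problem
-/

set_option autoImplicit false

namespace Pool.Agent.Results.MP_b6562f_lc.RandomFormulasClique

open Pool.Agent.Helper71.Cliq

/-- A randomised Boolean formula over the full binary basis (a finite family `F ω` with
probabilities `w ω`) that decides on each graph with `n` vertices, with probability at least
`1 / 2 + δ`, whether it has a `k`-clique has expected size at least `c n ^ 4 / log n`. -/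
theorem result (ε δ : ℝ) (hε : 0 < ε) (hδ : 0 < δ) :
    ∃ c : ℝ, 0 < c ∧ ∃ n₀ : ℕ, ∀ n : ℕ, n₀ ≤ n → ∀ k : ℕ,
      2 * Real.logb 2 n + 1 ≤ k → (k : ℝ) ≤ (1 - ε) * n →
      ∀ (Ω : Type) [Fintype Ω] (w : Ω → ℝ) (F : Ω → BForm (Sym2 (Fin n))),
        (∀ ω, 0 ≤ w ω) → ∑ ω, w ω = 1 →
        (∀ G : SimpleGraph (Fin n), 1 / 2 + δ ≤
          ∑ ω, w ω * @ite ℝ ((F ω).eval (chi G) = true ↔ ¬ G.CliqueFree k)
            (Classical.dec _) 1 0) →
        c * (n : ℝ) ^ 4 / Real.log n ≤ ∑ ω, w ω * ((F ω).size : ℝ) :=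
  rand_main ε δ hε hδ

end Pool.Agent.Results.MP_b6562f_lc.RandomFormulasClique
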