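import Mathlib
import Pool.Agent.Lead.RankAdditive
import Pool.Agent.Lead.MatchingInstances

/-!
# One-sided randomised determinantal tests for three-dimensional matching

Lovász's randomised algorithm decides bipartite perfect matching by one random determinant into
which each row of the input enters with rank one.  For the NP-complete three-dimensional matching
problem, tests of this kind (nonvanishing of a random linear combination of `N` determinants of
matrices `C + ∑ i, P i * Q i (X i)`, where `X i` is the `i`-th slice of the input and `P i` has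
`τ i` columns) need `4 (n + 1) ^ 2 N ≥ ε (1 + 2 / 2 ^ a) ^ n`, where `a` is the average of the
numbers `τ i`.
-/

open Finset Pool.Agent.Lead Pool.Agent.Lead.MatchingInstances

namespace Pool.Agent.Results.MP_b6562f_lc.RankDeterminantalTests

open Classical in
/-- For a fixed outcome of the random bits: if the test value vanishes on all instances without a
matching, then it is nonzero on few of the diagonal instances. -/
lemma diag_bound {K : Type*} [Field K] (n N r : ℕ) (τ : Fin n → ℕ)
    (S : Fin N → Type) [∀ k, Fintype (S k)] [∀ k, DecidableEq (S k)]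
    (C : ∀ k, Matrix (S k) (S k) K)
    (P : ∀ (k : Fin N) (i : Fin n), Matrix (S k) (Fin (τ i)) K)
    (Q : ∀ (k : Fin N) (i : Fin n), (Fin n → Fin n → Bool) → Matrix (Fin (τ i)) (S k) K)
    (c : Fin N → K)
    (hno : ∀ X : Fin n → Fin n → Fin n → Bool, ¬ HasMatching X →
      ∑ k, c k * (C k + ∑ i, P k i * Q k i (X i)).det = 0) :
    (univ.filter (fun a : Pairs n r =>
      ∑ k, c k * (C k + ∑ i, P k i * Q k i (inst a a i)).det ≠ 0)).card
      ≤ N * 2 ^ (∑ i ∈ univ.filter (fun i : Fin n => i.1 < 2 * r), τ i) := by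
  classical
  let M : ∀ k, (Fin n → Fin n → Fin n → Bool) → Matrix (S k) (S k) K := fun k X =>
    C k + ∑ i, P k i * Q k i (X i)
  change (univ.filter (fun a : Pairs n r => ∑ k, c k * (M k (inst a a)).det ≠ 0)).card ≤ _
  change ∀ X, ¬ HasMatching X → ∑ k, c k * (M k X).det = 0 at hno
  let IA : Finset (Fin n) := univ.filter (fun i => i.1 < r)
  let IB : Finset (Fin n) := univ.filter (fun i => r ≤ i.1 ∧ i.1 < 2 * r)
  have hIAB : IA ∪ IB = univ.filter (fun i : Fin n => i.1 < 2 * r) := by
    ext i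
    simp only [IA, IB, mem_union, mem_filter, mem_univ, true_and]
    omega
  have hfac : ∀ k : Fin N, ∃ (d : ℕ) (f : Pairs n r → Fin d → K) (g : Pairs n r → Fin d → K),
      d ≤ 2 ^ (∑ i ∈ univ.filter (fun i : Fin n => i.1 < 2 * r), τ i) ∧
      ∀ a b, (M k (inst a b)).det = ∑ i, f a i * g b i := by
    intro k
    obtain ⟨d, f, g, hd, hfg⟩ := RankAdditive.det_factor_sum (K := K) (S := S k)
      (α := Pairs n r) (β := Pairs n r)
      τ (C k) (P k) (fun a b i => Q k i (inst a b i)) IA IB
      (by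
        rw [Finset.disjoint_left]
        intro i h1 h2
        simp only [IA, IB, mem_filter, mem_univ, true_and] at h1 h2
        omega)
      (by
        intro i hi a b b'
        simp only [IA, mem_filter, mem_univ, true_and] at hi
        have : inst a b i = inst a b' i := by
          funext j l
          simp only [inst, hi, dif_pos]
        rw [this])
      (by
        intro i hi a a' b
        simp only [IB, mem_filter, mem_univ, true_and] at hi
        have hi2 : ¬ i.1 < r := by omega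
        have : inst a b i = inst a' b i := by
          funext j l
          simp only [inst, hi2, dif_neg, not_false_iff, hi.2, dif_pos]
        rw [this])
      (by
        intro i hiA hiB a a' b b'
        have h1 : ¬ i.1 < r := fun hlt => hiA (by simp [IA, hlt])
        have h2 : ¬ i.1 < 2 * r := fun hlt => hiB (by simp [IB, hlt]; omega)
        have : inst a b i = inst a' b' i := by
          funext j l
          simp only [inst, h1, h2, dif_neg, not_false_iff]
        rw [this])
    rw [hIAB] at hd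
    exact ⟨d, f, g, hd, hfg⟩
  choose d f g hd hfg using hfac
  by_contra hcon
  push Not at hcon
  let D : Finset (Pairs n r) :=
    univ.filter (fun a : Pairs n r => ∑ k, c k * (M k (inst a a)).det ≠ 0)
  let Φ : (D → K) →ₗ[K] (∀ k : Fin N, Fin (d k) → K) :=
    { toFun := fun α k j => ∑ a : D, α a * f k a.1 j
      map_add' := by
        intro α β
        funext k j
        simp only [Pi.add_apply, add_mul, Finset.sum_add_distrib]
      map_smul' := by
        intro x α
        funext k j
        simp only [Pi.smul_apply, smul_eq_mul, RingHom.id_apply, Finset.mul_sum, mul_assoc] }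
  have hfr : Module.finrank K (∀ k : Fin N, Fin (d k) → K) < Module.finrank K (D → K) := by
    rw [Module.finrank_fintype_fun_eq_card, Module.finrank_pi_fintype]
    simp only [Module.finrank_fintype_fun_eq_card, Fintype.card_fin, Fintype.card_coe]
    refine lt_of_le_of_lt ?_ hcon
    calc ∑ k : Fin N, d k ≤ ∑ _k : Fin N, 2 ^ (∑ i ∈ univ.filter (fun i : Fin n => i.1 < 2 * r), τ i) := Finset.sum_le_sum fun k _ => hd k
      _ = N * 2 ^ (∑ i ∈ univ.filter (fun i : Fin n => i.1 < 2 * r), τ i) := by simp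
  have hker := LinearMap.ker_ne_bot_of_finrank_lt (f := Φ) hfr
  obtain ⟨α, hα, hα0⟩ := (Submodule.ne_bot_iff _).1 hker
  rw [LinearMap.mem_ker] at hα
  have hΦ : ∀ k j, ∑ a : D, α a * f k a.1 j = 0 := fun k j => congrFun (congrFun hα k) j
  have hval : ∀ b : D, ∑ a : D, α a * (∑ k, c k * (M k (inst a.1 b.1)).det) = 0 := by
    intro b
    have h1 : ∀ a : D, α a * (∑ k, c k * (M k (inst a.1 b.1)).det)
        = ∑ k, c k * ∑ j, g k b.1 j * (α a * f k a.1 j) := by
      intro a
      rw [Finset.mul_sum]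
      refine Finset.sum_congr rfl fun k _ => ?_
      rw [hfg, Finset.mul_sum, Finset.mul_sum, Finset.mul_sum]
      refine Finset.sum_congr rfl fun j _ => ?_
      ring
    simp_rw [h1]
    rw [Finset.sum_comm]
    refine Finset.sum_eq_zero fun k _ => ?_
    rw [← Finset.mul_sum, Finset.sum_comm]
    simp_rw [← Finset.mul_sum, hΦ]
    simp
  apply hα0
  funext b
  have h1 := hval b
  rw [Finset.sum_eq_single b] at h1
  · have h2 : ∑ k, c k * (M k (inst b.1 b.1)).det ≠ 0 := (Finset.mem_filter.1 b.2).2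
    exact (mul_eq_zero.1 h1).resolve_right h2
  · intro a _ hab
    rw [hno _ (fun hm => hab (Subtype.ext (eq_of_hasMatching _ _ hm))), mul_zero]
  · intro hb; exact absurd (Finset.mem_univ b) hb

lemma pairs_lower (n r : ℕ) (hr : 2 * r ≤ n) :
    n.choose (2 * r) * 4 ^ r ≤ (n + 1) * Fintype.card (Pairs n r) := by
  rw [card_pairs]
  have h1 := Nat.choose_mul (n := n) (k := 2 * r) (s := r) (by omega)
  have h2 : 2 * r - r = r := by omega
  rw [h2] at h1
  rw [← h1]
  have h3 : 4 ^ r ≤ (2 * r + 1) * (2 * r).choose r := by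
    rcases Nat.eq_zero_or_pos r with h0 | h0
    · subst h0; simp
    · have := Nat.four_pow_le_two_mul_self_mul_centralBinom r h0
      rw [Nat.centralBinom_eq_two_mul_choose] at this
      nlinarith [Nat.zero_le ((2 * r).choose r)]
  calc n.choose (2 * r) * 4 ^ r ≤ n.choose (2 * r) * ((2 * r + 1) * (2 * r).choose r) :=
        Nat.mul_le_mul_left _ h3
    _ ≤ n.choose (2 * r) * ((n + 1) * (2 * r).choose r) := by
        gcongr
    _ = (n + 1) * (n.choose (2 * r) * (2 * r).choose r) := by ring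

/-- a matching test composed with a reordering of the slices -/
lemma hasMatching_perm {n : ℕ} (ρ : Equiv.Perm (Fin n)) (X : Fin n → Fin n → Fin n → Bool) :
    HasMatching (fun i => X (ρ i)) ↔ HasMatching X := by
  constructor
  · rintro ⟨σ, τ, h⟩
    refine ⟨ρ.symm.trans σ, ρ.symm.trans τ, fun i => ?_⟩
    have := h (ρ.symm i)
    simpa using this
  · rintro ⟨σ, τ, h⟩
    exact ⟨ρ.trans σ, ρ.trans τ, fun i => h (ρ i)⟩

/-- Lower bound for one-sided randomised determinantal tests for three-dimensional matching. -/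
theorem result {K : Type*} [Field K] (n N : ℕ) (τ : Fin n → ℕ)
    {Ω : Type*} [Fintype Ω] (p : Ω → ℝ) (hp : ∀ ω, 0 ≤ p ω) (hp1 : ∑ ω, p ω = 1)
    (S : Ω → Fin N → Type) [∀ ω k, Fintype (S ω k)] [∀ ω k, DecidableEq (S ω k)]
    (C : ∀ ω k, Matrix (S ω k) (S ω k) K)
    (P : ∀ (ω : Ω) (k : Fin N) (i : Fin n), Matrix (S ω k) (Fin (τ i)) K)
    (Q : ∀ (ω : Ω) (k : Fin N) (i : Fin n),
      (Fin n → Fin n → Bool) → Matrix (Fin (τ i)) (S ω k) K)
    (c : Ω → Fin N → K) (ε : ℝ)
    (hno : ∀ X : Fin n → Fin n → Fin n → Bool, ¬ HasMatching X → ∀ ω, 0 < p ω →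
      ∑ k, c ω k * (C ω k + ∑ i, P ω k i * Q ω k i (X i)).det = 0)
    (hyes : ∀ X : Fin n → Fin n → Fin n → Bool, HasMatching X → ∃ E : Finset Ω,
      (∀ ω ∈ E, ∑ k, c ω k * (C ω k + ∑ i, P ω k i * Q ω k i (X i)).det ≠ 0) ∧
      ε ≤ ∑ ω ∈ E, p ω) :
    ε * (1 + 2 / (2 : ℝ) ^ ((∑ i, (τ i : ℝ)) / n)) ^ n ≤ 4 * (n + 1) ^ 2 * N := by
  classical
  let ρ : Equiv.Perm (Fin n) := Tuple.sort τ
  have hmono : Monotone (fun i => τ (ρ i)) := Tuple.monotone_sort τ
  -- the value of the test after reordering the slices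
  let V : Ω → (Fin n → Fin n → Fin n → Bool) → K := fun ω X =>
    ∑ k, c ω k * (C ω k + ∑ i, P ω k (ρ i) * Q ω k (ρ i) (X i)).det
  have hV : ∀ ω X, V ω X
      = ∑ k, c ω k * (C ω k + ∑ i, P ω k i * Q ω k i (X (ρ.symm i))).det := by
    intro ω X
    refine Finset.sum_congr rfl fun k _ => ?_
    congr 3
    rw [← Equiv.sum_comp ρ (fun i => P ω k i * Q ω k i (X (ρ.symm i)))]
    refine Finset.sum_congr rfl fun i _ => ?_
    rw [Equiv.symm_apply_apply]
  have hVno : ∀ X, ¬ HasMatching X → ∀ ω, 0 < p ω → V ω X = 0 := by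
    intro X hX ω hω
    rw [hV]
    exact hno (fun i => X (ρ.symm i)) (fun hm => hX ((hasMatching_perm ρ.symm X).1 hm)) ω hω
  have hVyes : ∀ X, HasMatching X → ε ≤ ∑ ω, if V ω X ≠ 0 then p ω else 0 := by
    intro X hX
    obtain ⟨E, hE, hε⟩ := hyes (fun i => X (ρ.symm i)) ((hasMatching_perm ρ.symm X).2 hX)
    refine hε.trans ?_
    rw [← Finset.sum_filter]
    refine Finset.sum_le_sum_of_subset_of_nonneg ?_ fun ω _ _ => hp ω
    intro ω hω
    simpa [hV] using hE ω hω
  set a : ℝ := (∑ i, (τ i : ℝ)) / n with ha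
  have ha0 : 0 ≤ a := by positivity
  -- the bound for each `r`
  have key0 : ∀ r : ℕ, 2 * r ≤ n → ε * Fintype.card (Pairs n r)
      ≤ N * 2 ^ (∑ i ∈ univ.filter (fun i : Fin n => i.1 < 2 * r), τ (ρ i)) := by
    intro r hr
    have h1 : ε * Fintype.card (Pairs n r)
        ≤ ∑ ω, p ω * ((univ.filter
          (fun a : Pairs n r => V ω (inst a a) ≠ 0)).card : ℝ) := by
      calc ε * Fintype.card (Pairs n r) = ∑ _a : Pairs n r, ε := by simp [mul_comm]
        _ ≤ ∑ a : Pairs n r, ∑ ω, (if V ω (inst a a) ≠ 0 then p ω else 0) :=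
            Finset.sum_le_sum fun a _ => hVyes _ (hasMatching_self hr a)
        _ = ∑ ω, ∑ a : Pairs n r, (if V ω (inst a a) ≠ 0 then p ω else 0) :=
            Finset.sum_comm
        _ = _ := by
            refine Finset.sum_congr rfl fun ω _ => ?_
            rw [← Finset.sum_filter, Finset.sum_const, nsmul_eq_mul, mul_comm]
    refine h1.trans ?_
    calc ∑ ω, p ω * ((univ.filter
          (fun a : Pairs n r => V ω (inst a a) ≠ 0)).card : ℝ)
        ≤ ∑ ω, p ω * (N * 2 ^ (∑ i ∈ univ.filter (fun i : Fin n => i.1 < 2 * r), τ (ρ i)) : ℝ) := by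
          refine Finset.sum_le_sum fun ω _ => ?_
          rcases (hp ω).eq_or_lt with h0 | h0
          · rw [← h0]; simp
          · refine mul_le_mul_of_nonneg_left ?_ (hp ω)
            have := diag_bound n N r (fun i => τ (ρ i)) (S ω) (C ω) (fun k i => P ω k (ρ i))
              (fun k i => Q ω k (ρ i)) (c ω) (fun X hX => hVno X hX ω h0)
            exact_mod_cast this
      _ = _ := by rw [← Finset.sum_mul, hp1, one_mul]
  rcases le_or_gt ε 0 with hε | hε
  · refine (mul_nonpos_of_nonpos_of_nonneg hε (by positivity)).trans (by positivity)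
  rcases Nat.eq_zero_or_pos n with hn | hn
  · have h1 := key0 0 (by omega)
    have h2 : (1 : ℝ) ≤ Fintype.card (Pairs n 0) := by
      rw [card_pairs]; simp
    have h3 : (∑ i ∈ univ.filter (fun i : Fin n => i.1 < 2 * 0), τ (ρ i)) = 0 := by
      refine Finset.sum_eq_zero fun i hi => ?_
      simp at hi
    rw [h3, pow_zero, mul_one] at h1
    have h4 : (0 : ℝ) ≤ N := Nat.cast_nonneg N
    have h5 : ε ≤ N := by nlinarith
    subst hn
    simp only [pow_zero, mul_one, Nat.cast_zero, zero_add, one_pow]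
    linarith
  have hn' : (0 : ℝ) < n := by exact_mod_cast hn
  have key : ∀ r : ℕ, 2 * r ≤ n →
      ε * Fintype.card (Pairs n r) ≤ N * ((2 : ℝ) ^ a) ^ (2 * r) := by
    intro r hr
    refine (key0 r hr).trans ?_
    have h4 := RankAdditive.mul_sum_filter_le (m := 2 * r) (fun i => τ (ρ i)) hmono
    rw [min_eq_left hr, Equiv.sum_comp ρ τ] at h4
    set s : ℕ := ∑ i ∈ univ.filter (fun i : Fin n => i.1 < 2 * r), τ (ρ i) with hs
    have h5 : (s : ℝ) ≤ 2 * r * a := by
      rw [ha, mul_div_assoc', le_div_iff₀ hn']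
      have : ((n * s : ℕ) : ℝ) ≤ ((2 * r * ∑ i, τ i : ℕ) : ℝ) := by exact_mod_cast h4
      push_cast at this
      linarith
    refine mul_le_mul_of_nonneg_left ?_ (Nat.cast_nonneg N)
    rw [← Real.rpow_natCast, ← Real.rpow_natCast, ← Real.rpow_mul (by norm_num)]
    refine Real.rpow_le_rpow_of_exponent_le (by norm_num) ?_
    push_cast
    linarith
  set w : ℝ := 2 / (2 : ℝ) ^ a with hw
  have hw0 : 0 ≤ w := by positivity
  have hw1 : w ≤ 2 := by
    rw [hw, div_le_iff₀ (by positivity)]
    have : (1 : ℝ) ≤ (2 : ℝ) ^ a := Real.one_le_rpow (by norm_num) ha0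
    linarith
  have hterm : ∀ r : ℕ, 2 * r ≤ n → ε * (w ^ (2 * r) * (n.choose (2 * r) : ℝ)) ≤ (n + 1) * N := by
    intro r hr
    have h1 := key r hr
    have h2 : ((n.choose (2 * r) : ℝ)) * 4 ^ r ≤ (n + 1) * (Fintype.card (Pairs n r) : ℝ) := by
      exact_mod_cast pairs_lower n r hr
    have h3 : w ^ (2 * r) = 4 ^ r / ((2 : ℝ) ^ a) ^ (2 * r) := by
      rw [hw, div_pow]
      congr 1
      rw [pow_mul]; norm_num
    rw [h3]
    have h4 : (0 : ℝ) < ((2 : ℝ) ^ a) ^ (2 * r) := by positivity
    rw [div_mul_eq_mul_div, mul_div_assoc', div_le_iff₀ h4]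
    calc ε * (4 ^ r * (n.choose (2 * r) : ℝ)) = ε * ((n.choose (2 * r) : ℝ) * 4 ^ r) := by ring
      _ ≤ ε * ((n + 1) * (Fintype.card (Pairs n r) : ℝ)) := by
          exact mul_le_mul_of_nonneg_left h2 hε.le
      _ = (n + 1) * (ε * (Fintype.card (Pairs n r) : ℝ)) := by ring
      _ ≤ (n + 1) * (N * ((2 : ℝ) ^ a) ^ (2 * r)) := by
          refine mul_le_mul_of_nonneg_left h1 (by positivity)
      _ = (n + 1) * N * ((2 : ℝ) ^ a) ^ (2 * r) := by ring
  have hsum : (1 + w) ^ n + (1 - w) ^ n
      = ∑ m ∈ Finset.range (n + 1), (w ^ m + (-w) ^ m) * (n.choose m : ℝ) := by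
    have e1 : (1 + w) ^ n = ∑ m ∈ Finset.range (n + 1), w ^ m * 1 ^ (n - m) * (n.choose m : ℝ) := by
      rw [add_comm, add_pow]
    have e2 : (1 - w) ^ n
        = ∑ m ∈ Finset.range (n + 1), (-w) ^ m * 1 ^ (n - m) * (n.choose m : ℝ) := by
      rw [show (1 : ℝ) - w = -w + 1 by ring, add_pow]
    rw [e1, e2, ← Finset.sum_add_distrib]
    refine Finset.sum_congr rfl fun m _ => ?_
    rw [one_pow]; ring
  have hm : ∀ m ∈ Finset.range (n + 1),
      ε * ((w ^ m + (-w) ^ m) * (n.choose m : ℝ)) ≤ 2 * ((n + 1) * N) := by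
    intro m hm
    rw [Finset.mem_range] at hm
    rcases Nat.even_or_odd m with he | ho
    · obtain ⟨r, rfl⟩ := he
      have h1 := hterm r (by omega)
      rw [(Even.neg_pow ⟨r, rfl⟩ w)]
      rw [← two_mul r]
      nlinarith [h1]
    · rw [ho.neg_pow]
      have : ε * ((w ^ m + -w ^ m) * (n.choose m : ℝ)) = 0 := by ring
      rw [this]; positivity
  have hfin : ε * ((1 + w) ^ n + (1 - w) ^ n) ≤ 2 * (n + 1) ^ 2 * N := by
    rw [hsum, Finset.mul_sum]
    calc _ ≤ ∑ _m ∈ Finset.range (n + 1), (2 * ((n + 1) * N) : ℝ) := Finset.sum_le_sum hm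
      _ = 2 * (n + 1) ^ 2 * N := by
        rw [Finset.sum_const, Finset.card_range, nsmul_eq_mul]; push_cast; ring
  have hpos : -((1 + w) ^ n / 2) ≤ (1 - w) ^ n := by
    rcases le_or_gt w 1 with h | h
    · have h1 : 0 ≤ (1 - w) ^ n := pow_nonneg (by linarith) n
      have h2 : 0 ≤ (1 + w) ^ n := by positivity
      linarith
    · have e1 : |(1 - w) ^ n| ≤ (1 + w) ^ n / 2 := by
        rw [abs_pow]
        have e2 : |1 - w| ≤ (1 + w) := by rw [abs_le]; constructor <;> linarith
        have e4 : |1 - w| ≤ (1 + w) / 2 := by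
          rw [abs_of_nonpos (by linarith)]
          linarith
        obtain ⟨m, hm'⟩ : ∃ m, n = m + 1 := ⟨n - 1, by omega⟩
        rw [hm']
        calc |1 - w| ^ (m + 1) = |1 - w| ^ m * |1 - w| := pow_succ _ _
          _ ≤ (1 + w) ^ m * ((1 + w) / 2) := by
            refine mul_le_mul (pow_le_pow_left₀ (abs_nonneg _) e2 m) e4
              (abs_nonneg _) (by positivity)
          _ = (1 + w) ^ (m + 1) / 2 := by ring
      exact (abs_le.1 e1).1
  have hpos2 : -(ε * ((1 + w) ^ n / 2)) ≤ ε * (1 - w) ^ n := by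
    have := mul_le_mul_of_nonneg_left hpos hε.le
    linarith
  nlinarith [hfin, hpos2]

end Pool.Agent.Results.MP_b6562f_lc.RankDeterminantalTests
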