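import Mathlib
import Pool.Agent.Lead.RankAdditive
import Pool.Agent.Lead.Disjointness
import Pool.Agent.Lead.PermRows

/-!
# Counting perfect matchings by sums of determinants with row rank restrictions

Suppose that the permanent of every `n × n` matrix `X` with entries `0`, `1` (that is, the number
of perfect matchings of a bipartite graph) is a linear combination of `N` determinants of matrices
`C k + ∑ i, P k i * Q k i (X i)`, of any sizes, where `C k` and `P k i` are constant matrices,
`P k i` has `τ i` columns, and `Q k i` is an arbitrary function of the `i`-th row of `X`.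
Then `(1 + 4 ^ (-a)) ^ n ≤ (n + 1) N`, where `a` is the average of the numbers `τ i`.
-/

open Finset Pool.Agent.Lead

namespace Pool.Agent.Results.MP_381749_lc.RowRankDeterminants

lemma bound_r {K : Type*} [Field K] [CharZero K] (n N : ℕ) (τ : Fin n → ℕ)
    (S : Fin N → Type) [∀ k, Fintype (S k)] [∀ k, DecidableEq (S k)]
    (C : ∀ k, Matrix (S k) (S k) K)
    (P : ∀ (k : Fin N) (i : Fin n), Matrix (S k) (Fin (τ i)) K)
    (Q : ∀ (k : Fin N) (i : Fin n), (Fin n → K) → Matrix (Fin (τ i)) (S k) K)
    (c : Fin N → K)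
    (h : ∀ X : Matrix (Fin n) (Fin n) K, (∀ i j, X i j = 0 ∨ X i j = 1) →
      X.permanent = ∑ k, c k * (C k + ∑ i, P k i * Q k i (X i)).det) (r : ℕ) (hr : 2 * r ≤ n) :
    n.choose r ≤ N * 2 ^ (∑ i ∈ univ.filter (fun i : Fin n => i.1 < 2 * r), τ i) := by
  classical
  let PP : Type := {J : Finset (Fin n) // J.card = r}
  let XX : PP → PP → Matrix (Fin n) (Fin n) K := fun a b =>
    PermRows.X K (a.1.orderEmbOfFin a.2) (b.1.orderEmbOfFin b.2)
  let M : ∀ k, Matrix (Fin n) (Fin n) K → Matrix (S k) (S k) K := fun k X =>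
    C k + ∑ i, P k i * Q k i (X i)
  let IA : Finset (Fin n) := univ.filter (fun i => i.1 < r)
  let IB : Finset (Fin n) := univ.filter (fun i => r ≤ i.1 ∧ i.1 < 2 * r)
  have hIAB : IA ∪ IB = univ.filter (fun i : Fin n => i.1 < 2 * r) := by
    ext i
    simp only [IA, IB, mem_union, mem_filter, mem_univ, true_and]
    omega
  have hfac : ∀ k : Fin N, ∃ (d : ℕ) (f : PP → Fin d → K) (g : PP → Fin d → K),
      d ≤ 2 ^ (∑ i ∈ univ.filter (fun i : Fin n => i.1 < 2 * r), τ i) ∧
      ∀ a b, (M k (XX a b)).det = ∑ i, f a i * g b i := by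
    intro k
    obtain ⟨d, f, g, hd, hfg⟩ := RankAdditive.det_factor_sum (K := K) (S := S k) (α := PP) (β := PP)
      τ (C k) (P k) (fun a b i => Q k i (XX a b i)) IA IB
      (by
        rw [Finset.disjoint_left]
        intro i h1 h2
        simp only [IA, IB, mem_filter, mem_univ, true_and] at h1 h2
        omega)
      (by
        intro i hi a b b'
        simp only [IA, mem_filter, mem_univ, true_and] at hi
        have : XX a b i = XX a b' i := by
          funext j
          simp only [XX, PermRows.X, hi, dif_pos]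
        rw [this])
      (by
        intro i hi a a' b
        simp only [IB, mem_filter, mem_univ, true_and] at hi
        have hi2 : ¬ i.1 < r := by omega
        have : XX a b i = XX a' b i := by
          funext j
          simp only [XX, PermRows.X, hi2, dif_neg, not_false_iff, hi.2, dif_pos]
        rw [this])
      (by
        intro i hiA hiB a a' b b'
        have h1 : ¬ i.1 < r := fun hlt => hiA (by simp [IA, hlt])
        have h2 : ¬ i.1 < 2 * r := fun hlt => hiB (by simp [IB, hlt]; omega)
        have : XX a b i = XX a' b' i := by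
          funext j
          simp only [XX, PermRows.X, h1, h2, dif_neg, not_false_iff]
        rw [this])
    rw [hIAB] at hd
    exact ⟨d, f, g, hd, hfg⟩
  choose d f g hd hfg using hfac
  by_contra hcon
  push Not at hcon
  let Φ : (PP → K) →ₗ[K] (∀ k : Fin N, Fin (d k) → K) :=
    { toFun := fun α k j => ∑ J, α J * f k J j
      map_add' := by
        intro α β
        funext k j
        simp only [Pi.add_apply, add_mul, Finset.sum_add_distrib]
      map_smul' := by
        intro x α
        funext k j
        simp only [Pi.smul_apply, smul_eq_mul, RingHom.id_apply, Finset.mul_sum, mul_assoc] }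
  have hfr : Module.finrank K (∀ k : Fin N, Fin (d k) → K) < Module.finrank K (PP → K) := by
    rw [Module.finrank_fintype_fun_eq_card, Module.finrank_pi_fintype]
    simp only [Module.finrank_fintype_fun_eq_card, Fintype.card_fin]
    have hP : Fintype.card PP = n.choose r := by
      simp [PP]
    rw [hP]
    refine lt_of_le_of_lt ?_ hcon
    calc ∑ k : Fin N, d k ≤ ∑ _k : Fin N, 2 ^ (∑ i ∈ univ.filter (fun i : Fin n => i.1 < 2 * r), τ i) := Finset.sum_le_sum fun k _ => hd k
      _ = N * 2 ^ (∑ i ∈ univ.filter (fun i : Fin n => i.1 < 2 * r), τ i) := by simp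
  have hker := LinearMap.ker_ne_bot_of_finrank_lt (f := Φ) hfr
  obtain ⟨α, hα, hα0⟩ := (Submodule.ne_bot_iff _).1 hker
  rw [LinearMap.mem_ker] at hα
  have hΦ : ∀ k j, ∑ J, α J * f k J j = 0 := fun k j => congrFun (congrFun hα k) j
  have hperm : ∀ L : PP, ∑ J : PP, α J * (XX J L).permanent = 0 := by
    intro L
    have h1 : ∀ J : PP, α J * (XX J L).permanent
        = ∑ k, c k * ∑ j, g k L j * (α J * f k J j) := by
      intro J
      rw [show (XX J L).permanent = ∑ k, c k * (M k (XX J L)).det from
        h _ (fun i j => PermRows.X_zero_one _ _ i j), Finset.mul_sum]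
      refine Finset.sum_congr rfl fun k _ => ?_
      rw [hfg, Finset.mul_sum, Finset.mul_sum, Finset.mul_sum]
      refine Finset.sum_congr rfl fun j _ => ?_
      ring
    simp_rw [h1]
    rw [Finset.sum_comm]
    refine Finset.sum_eq_zero fun k _ => ?_
    rw [← Finset.mul_sum, Finset.sum_comm]
    simp_rw [← Finset.mul_sum, hΦ]
    simp
  have hc0 : ((PermRows.good hr (PermRows.posL hr) (PermRows.posR hr)).card : K) ≠ 0 := by
    rw [Nat.cast_ne_zero]
    exact (PermRows.good_pos hr).ne'
  let α' : Finset (Fin n) → K := fun J => if hJ : J.card = r then α ⟨J, hJ⟩ else 0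
  have hzero := Disjointness.disjointness_nonsingular r hr α' (by
    intro L hL
    have h1 := hperm ⟨L, hL⟩
    have h2 : ∀ J : PP, α J * (XX J ⟨L, hL⟩).permanent
        = ((PermRows.good hr (PermRows.posL hr) (PermRows.posR hr)).card : K)
          * (if Disjoint J.1 L then α' J.1 else 0) := by
      intro J
      simp only [XX]
      rw [PermRows.permanent_X_sets hr J.1 L J.2 hL]
      have h3 : α' J.1 = α J := by simp only [α', J.2, dif_pos]; rfl
      split_ifs
      · rw [h3]; ring
      · ring
    simp_rw [h2] at h1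
    rw [← Finset.mul_sum] at h1
    have h4 := (mul_eq_zero.1 h1).resolve_left hc0
    refine Eq.trans ?_ h4
    refine (Finset.sum_subtype (powersetCard r (univ : Finset (Fin n)))
      (p := fun J => J.card = r) (fun J => by simp [mem_powersetCard])
      (fun J => if Disjoint J L then α' J else 0)))
  apply hα0
  funext J
  have := hzero J.1 J.2
  simp only [α', J.2, dif_pos] at this
  exact this

/-- An exponential lower bound for counting perfect matchings of bipartite graphs by linear
combinations of determinants into which the `i`-th row of the biadjacency matrix enters with rank at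
most `τ i`. -/
theorem result {K : Type*} [Field K] [CharZero K] (n N : ℕ) (τ : Fin n → ℕ)
    (S : Fin N → Type) [∀ k, Fintype (S k)] [∀ k, DecidableEq (S k)]
    (C : ∀ k, Matrix (S k) (S k) K)
    (P : ∀ (k : Fin N) (i : Fin n), Matrix (S k) (Fin (τ i)) K)
    (Q : ∀ (k : Fin N) (i : Fin n), (Fin n → K) → Matrix (Fin (τ i)) (S k) K)
    (c : Fin N → K)
    (h : ∀ X : Matrix (Fin n) (Fin n) K, (∀ i j, X i j = 0 ∨ X i j = 1) →
      X.permanent = ∑ k, c k * (C k + ∑ i, P k i * Q k i (X i)).det) :
    (1 + (1 / 4 : ℝ) ^ ((∑ i, (τ i : ℝ)) / n)) ^ n ≤ (n + 1) * N := by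
  classical
  set a : ℝ := (∑ i, (τ i : ℝ)) / n with ha
  have ha0 : 0 ≤ a := by positivity
  set x : ℝ := (1 / 4 : ℝ) ^ a with hx
  have hx0 : (0 : ℝ) < x := by positivity
  have hx1 : x ≤ 1 := Real.rpow_le_one (by norm_num) (by norm_num) ha0
  -- the rows may be reordered
  let ρ : Equiv.Perm (Fin n) := Tuple.sort τ
  have hmono : Monotone (fun i => τ (ρ i)) := Tuple.monotone_sort τ
  have key : ∀ r : ℕ, 2 * r ≤ n → (n.choose r : ℝ) * x ^ r ≤ N := by
    intro r hr
    have h1 := bound_r n N (fun i => τ (ρ i)) S C (fun k i => P k (ρ i)) (fun k i => Q k (ρ i)) c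
      (by
        intro X hX
        have h2 := h (fun i => X (ρ.symm i)) (fun i j => hX _ j)
        have h3 : Matrix.permanent (fun i => X (ρ.symm i) : Matrix (Fin n) (Fin n) K)
            = X.permanent := Matrix.permanent_permute_cols ρ.symm X
        rw [h3] at h2
        rw [h2]
        refine Finset.sum_congr rfl fun k _ => ?_
        congr 3
        rw [← Equiv.sum_comp ρ]
        refine Finset.sum_congr rfl fun i _ => ?_
        rw [Equiv.symm_apply_apply]) r hr
    have h4 := RankAdditive.mul_sum_filter_le (m := 2 * r) (fun i => τ (ρ i)) hmono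
    rw [min_eq_left hr, Equiv.sum_comp ρ τ] at h4
    set s : ℕ := ∑ i ∈ univ.filter (fun i : Fin n => i.1 < 2 * r), τ (ρ i) with hs
    rcases Nat.eq_zero_or_pos n with hn | hn
    · have hr0 : r = 0 := by omega
      subst hr0
      have hs0 : s = 0 := by
        rw [hs]
        refine Finset.sum_eq_zero fun i hi => ?_
        simp at hi
      rw [hs0, pow_zero, mul_one] at h1
      rw [pow_zero, mul_one]
      exact_mod_cast h1
    have hn' : (0 : ℝ) < n := by exact_mod_cast hn
    have h5 : (s : ℝ) ≤ 2 * r * a := by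
      rw [ha, mul_div_assoc', le_div_iff₀ hn']
      have : ((n * s : ℕ) : ℝ) ≤ ((2 * r * ∑ i, τ i : ℕ) : ℝ) := by exact_mod_cast h4
      push_cast at this
      linarith
    have h6 : (2 : ℝ) ^ s ≤ (x ^ r)⁻¹ := by
      have e1 : (x ^ r)⁻¹ = (2 : ℝ) ^ (2 * r * a) := by
        rw [hx, ← Real.rpow_natCast, ← Real.rpow_mul (by norm_num), ← Real.rpow_neg (by norm_num),
          show (1 / 4 : ℝ) = (2 : ℝ) ^ (-2 : ℝ) by
            rw [Real.rpow_neg (by norm_num)]; norm_num, ← Real.rpow_mul (by norm_num)]
        congr 1; ring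
      rw [e1, ← Real.rpow_natCast]
      exact Real.rpow_le_rpow_of_exponent_le (by norm_num) h5
    have h7 : (n.choose r : ℝ) ≤ N * 2 ^ s := by exact_mod_cast h1
    have h8 : (n.choose r : ℝ) ≤ N * (x ^ r)⁻¹ := h7.trans (by gcongr)
    have hxr : 0 < x ^ r := pow_pos hx0 r
    calc (n.choose r : ℝ) * x ^ r ≤ N * (x ^ r)⁻¹ * x ^ r := by gcongr
      _ = N := by field_simp
  have key2 : ∀ r ∈ Finset.range (n + 1),
      x ^ r * 1 ^ (n - r) * (n.choose r : ℝ) ≤ N := by
    intro r hr
    rw [one_pow, mul_one, mul_comm]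
    rw [Finset.mem_range] at hr
    by_cases hr2 : 2 * r ≤ n
    · exact key r hr2
    · have h1 := key (n - r) (by omega)
      rw [Nat.choose_symm (by omega : r ≤ n)] at h1
      refine le_trans ?_ h1
      refine mul_le_mul_of_nonneg_left ?_ (by positivity)
      exact pow_le_pow_of_le_one hx0.le hx1 (by omega)
  calc (1 + x) ^ n = (x + 1) ^ n := by rw [add_comm]
    _ = ∑ r ∈ Finset.range (n + 1), x ^ r * 1 ^ (n - r) * (n.choose r : ℝ) :=
        add_pow _ _ _
    _ ≤ ∑ _r ∈ Finset.range (n + 1), (N : ℝ) := Finset.sum_le_sum key2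
    _ = (n + 1) * N := by simp

end Pool.Agent.Results.MP_381749_lc.RowRankDeterminants
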