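import Mathlib
import Pool.Agent.Helper46.Sat
import Pool.Agent.Helper46.Sign

/-!
# Unbounded error determinantal tests for 3-SAT

If the sign of a real polynomial of bounded degree in `N` determinants decides the satisfiability
of the formulas with `n` clauses of at most three literals, and the `i`-th clause enters into the
matrices with rank at most `τ i`, then `N` is exponentially large. The proof combines a family of
formulas whose satisfiability is given by a Hadamard matrix with Forster's theorem on the sign rank
of Hadamard matrices, which is proved in `Pool.Agent.Helper46.Forster`.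
-/

open Pool.Agent.Helper46 Pool.Agent.Helper46.Sat

namespace Pool.Agent.Results.MP_b6562f_lc.SignSatTests

/-- Let `D k φ` be `N` determinants into which the `i`-th clause of the 3-CNF formula `φ` enters
with rank at most `τ i`, and let `F` be a real polynomial of degree at most `d` in their real and
imaginary parts. If `F > 0` exactly for the satisfiable formulas, then `N` is exponentially
large. -/
theorem result (n N d : ℕ) (τ : Fin n → ℕ)
    (S : Fin N → Type) [∀ k, Fintype (S k)] [∀ k, DecidableEq (S k)]
    (C : ∀ k, Matrix (S k) (S k) ℂ)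
    (P : ∀ (k : Fin N) (i : Fin n), Matrix (S k) (Fin (τ i)) ℂ)
    (Q : ∀ (k : Fin N) (i : Fin n), Finset (Fin n × Bool) → Matrix (Fin (τ i)) (S k) ℂ)
    (F : MvPolynomial (Fin N × Bool) ℝ) (hF : F.totalDegree ≤ d)
    (h : ∀ φ : Fin n → Finset (Fin n × Bool), (∀ i, (φ i).card ≤ 3) →
      (Satisfiable φ ↔ 0 < MvPolynomial.eval (fun y : Fin N × Bool =>
        if y.2 then ((C y.1 + ∑ i, P y.1 i * Q y.1 i (φ i)).det).re
        else ((C y.1 + ∑ i, P y.1 i * Q y.1 i (φ i)).det).im) F))
    (r : ℕ) :
    ((2 : ℝ) ^ r / 16 ^ (d * ((∑ i, (τ i : ℝ)) / n))) ^ (n / (2 * r * 2 ^ r + 7 * r + 2))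
      ≤ (4 * N + 2) ^ (2 * d) :=
  Sign.main n N d τ S C P Q F hF h r

end Pool.Agent.Results.MP_b6562f_lc.SignSatTests
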