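import Mathlib
import Pool.Agent.Helper46.Sat
import Pool.Agent.Helper46.TwoSided

/-!
# Two-sided error randomised determinantal tests for 3-SAT

A randomised estimator of satisfiability of formulas with `n` clauses of at most three literals
whose value is, for each outcome of the random bits, a linear combination of `N` determinants into
which the `i`-th clause enters with rank at most `τ i`, needs exponentially large `N` or
exponentially large second moment.
-/

open Pool.Agent.Helper46 Pool.Agent.Helper46.Sat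

namespace Pool.Agent.Results.MP_b6562f_lc.TwoSidedSatTests

/-- A randomised estimator of the satisfiability of 3-CNF formulas with `n` clauses whose value is,
for each outcome of the random bits, a linear combination of `N` determinants into which the `i`-th
clause enters with rank at most `τ i`: if its expectation separates the satisfiable formulas from
the unsatisfiable ones and its second moment is at most `B`, then `B N` is exponentially large. -/
theorem result (n N : ℕ) (τ : Fin n → ℕ)
    {Ω : Type*} [Fintype Ω] (p : Ω → ℝ) (hp : ∀ ω, 0 ≤ p ω) (hp1 : ∑ ω, p ω = 1)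
    (S : Ω → Fin N → Type) [∀ ω k, Fintype (S ω k)] [∀ ω k, DecidableEq (S ω k)]
    (c : Ω → Fin N → ℂ)
    (C : ∀ ω k, Matrix (S ω k) (S ω k) ℂ)
    (P : ∀ (ω : Ω) (k : Fin N) (i : Fin n), Matrix (S ω k) (Fin (τ i)) ℂ)
    (Q : ∀ (ω : Ω) (k : Fin N) (i : Fin n),
      Finset (Fin n × Bool) → Matrix (Fin (τ i)) (S ω k) ℂ)
    (B : ℝ)
    (hB : ∀ φ : Fin n → Finset (Fin n × Bool), (∀ i, (φ i).card ≤ 3) →
      ∑ ω, p ω * ‖∑ k, c ω k * (C ω k + ∑ i, P ω k i * Q ω k i (φ i)).det‖ ^ 2 ≤ B)
    (hyes : ∀ φ : Fin n → Finset (Fin n × Bool), (∀ i, (φ i).card ≤ 3) → Satisfiable φ →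
      2 / 3 ≤ ∑ ω, p ω * (∑ k, c ω k * (C ω k + ∑ i, P ω k i * Q ω k i (φ i)).det).re)
    (hno : ∀ φ : Fin n → Finset (Fin n × Bool), (∀ i, (φ i).card ≤ 3) → ¬ Satisfiable φ →
      ∑ ω, p ω * (∑ k, c ω k * (C ω k + ∑ i, P ω k i * Q ω k i (φ i)).det).re ≤ 1 / 3)
    (r : ℕ) :
    ((2 : ℝ) ^ r / 4 ^ ((∑ i, (τ i : ℝ)) / n)) ^ (n / (2 * r * 2 ^ r + 7 * r + 2))
      ≤ 36 * B * N :=
  TwoSided.main n N τ p hp hp1 S c C P Q B hB hyes hno r

end Pool.Agent.Results.MP_b6562f_lc.TwoSidedSatTests
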